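import Mathlib
import Pool.Agent.H.MP_38bec9_co.A

set_option autoImplicit false

namespace Pool.Agent.Results.MP_38bec9_co.No

open Pool.Agent.H.MP_38bec9_co Finset

/-- `ab` and `cd` are two disjoint edges of `G`. -/
def DisjEdges {V : Type} (G : SimpleGraph V) (a b c d : V) : Prop :=
  G.Adj a b ∧ G.Adj c d ∧ a ≠ c ∧ a ≠ d ∧ b ≠ c ∧ b ≠ d

/-- `G` has a pairwise suitable family of at most `k` linear orders: `π(G) ≤ k`. -/
def SepLE {V : Type} (G : SimpleGraph V) (k : ℕ) : Prop :=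
  ∃ F : Fin k → LinearOrder V, ∀ a b c d, DisjEdges G a b c d → ∃ i,
    ((F i).lt a c ∧ (F i).lt a d ∧ (F i).lt b c ∧ (F i).lt b d) ∨
    ((F i).lt c a ∧ (F i).lt d a ∧ (F i).lt c b ∧ (F i).lt d b)

/-- `G` has an embedding in `ℝ³` in which any two disjoint edges lie in different open
half-spaces of a plane `{p | ν i ⬝ᵥ p = t}` with one of `m` given normal vectors. -/
def Sep3LE {V : Type} (G : SimpleGraph V) (m : ℕ) : Prop :=
  ∃ (ν : Fin m → Fin 3 → ℝ) (φ : V → Fin 3 → ℝ), (∀ i, ν i ≠ 0) ∧ Function.Injective φ ∧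
    ∀ a b c d, DisjEdges G a b c d → ∃ (i : Fin m) (t : ℝ),
      ((∀ p ∈ segment ℝ (φ a) (φ b), ν i ⬝ᵥ p < t) ∧
        ∀ p ∈ segment ℝ (φ c) (φ d), t < ν i ⬝ᵥ p) ∨
      ((∀ p ∈ segment ℝ (φ c) (φ d), ν i ⬝ᵥ p < t) ∧
        ∀ p ∈ segment ℝ (φ a) (φ b), t < ν i ⬝ᵥ p)

abbrev W (n : ℕ) : Type := (Fin 13 × Fin n) ⊕ (Fin 13 × Fin n)
abbrev Sg (n : ℕ) : Type := Fin 13 → Fin 13 → Equiv.Perm (Fin n)

/-- one perfect matching between any left class and any right class, in every possible way -/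
def R (n : ℕ) (u v : Sg n × W n) : Prop :=
  ∃ σ p q a, u = (σ, Sum.inl (p, a)) ∧ v = (σ, Sum.inr (q, σ p q a))

def Gr (n : ℕ) : SimpleGraph (Sg n × W n) := SimpleGraph.fromRel (R n)

theorem sep_of_keys {V ι : Type} [Fintype V] [Fintype ι] (G : SimpleGraph V) (κ : ι → V → ℕ)
    (h : ∀ a b c d, DisjEdges G a b c d → ∃ i, κ i a = κ i b ∧ κ i c = κ i d ∧ κ i a ≠ κ i c) :
    SepLE G (Fintype.card ι) := by
  classical
  let e := Fintype.equivFin V
  let g := Fintype.equivFin ι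
  refine ⟨fun i => LinearOrder.lift' (fun v => toLex (κ (g.symm i) v, e v))
    (fun u v huv => e.injective (congrArg (fun z => (ofLex z).2) huv)), fun a b c d hd => ?_⟩
  obtain ⟨i, h1, h2, h3⟩ := h a b c d hd
  have key : ∀ u v, κ i u < κ i v → toLex (κ (g.symm (g i)) u, e u) <
      toLex (κ (g.symm (g i)) v, e v) := fun u v huv => by
    rw [Equiv.symm_apply_apply]; exact Prod.Lex.left _ _ huv
  refine ⟨g i, ?_⟩
  rcases lt_or_gt_of_ne h3 with h3 | h3
  · exact Or.inl ⟨key _ _ h3, key _ _ (h2 ▸ h3), key _ _ (h1 ▸ h3), key _ _ (h1 ▸ h2 ▸ h3)⟩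
  · exact Or.inr ⟨key _ _ h3, key _ _ (h2 ▸ h3), key _ _ (h1 ▸ h3), key _ _ (h1 ▸ h2 ▸ h3)⟩

noncomputable def key (n : ℕ) : (Fin 13 × Fin 13) ⊕ Fin 13 ⊕ Fin 13 → Sg n × W n → ℕ
  | Sum.inl (p, _), (_, Sum.inl (p', _)) => if p' = p then 0 else 1
  | Sum.inl (_, q), (_, Sum.inr (q', _)) => if q' = q then 0 else 1
  | Sum.inr (Sum.inl _), (σ, Sum.inl (_, a)) => Fintype.equivFin (Sg n × Fin n) (σ, a)
  | Sum.inr (Sum.inl p), (σ, Sum.inr (q, b)) =>
      Fintype.equivFin (Sg n × Fin n) (σ, (σ p q).symm b)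
  | Sum.inr (Sum.inr q), (σ, Sum.inl (p, a)) => Fintype.equivFin (Sg n × Fin n) (σ, σ p q a)
  | Sum.inr (Sum.inr _), (σ, Sum.inr (_, b)) => Fintype.equivFin (Sg n × Fin n) (σ, b)

theorem key_ok (n : ℕ) {a b c d : Sg n × W n} (h1 : R n a b) (h2 : R n c d) (hac : a ≠ c)
    (hbd : b ≠ d) : ∃ i, key n i a = key n i b ∧ key n i c = key n i d ∧
      key n i a ≠ key n i c := by
  obtain ⟨σ, p, q, x, rfl, rfl⟩ := h1
  obtain ⟨σ', p', q', x', rfl, rfl⟩ := h2
  by_cases hp : p' = p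
  · subst hp
    refine ⟨Sum.inr (Sum.inl p'), by simp [key], by simp [key], fun h => hac ?_⟩
    have := (Fintype.equivFin (Sg n × Fin n)).injective (Fin.ext h)
    rw [Prod.mk.injEq] at this
    rw [this.1, this.2]
  · by_cases hq : q' = q
    · subst hq
      refine ⟨Sum.inr (Sum.inr q'), by simp [key], by simp [key], fun h => hbd ?_⟩
      have := (Fintype.equivFin (Sg n × Fin n)).injective (Fin.ext h)
      rw [Prod.mk.injEq] at this
      rw [this.2, this.1]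
    · exact ⟨Sum.inl (p, q), by simp [key], by simp [key, hp, hq], by simp [key, hp]⟩

theorem sep_Gr (n : ℕ) : SepLE (Gr n) 195 := by
  have := sep_of_keys (Gr n) (key n) (by
    rintro a b c d ⟨⟨_, h1 | h1⟩, ⟨_, h2 | h2⟩, hac, had, hbc, hbd⟩
    · exact key_ok n h1 h2 hac hbd
    · obtain ⟨i, k1, k2, k3⟩ := key_ok n h1 h2 had hbc
      exact ⟨i, k1, k2.symm, k2 ▸ k3⟩
    · obtain ⟨i, k1, k2, k3⟩ := key_ok n h1 h2 hbc had
      exact ⟨i, k1.symm, k2, k1 ▸ k3⟩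
    · obtain ⟨i, k1, k2, k3⟩ := key_ok n h1 h2 hbd hac
      exact ⟨i, k1.symm, k2.symm, k1 ▸ k2 ▸ k3⟩)
  simpa using this

def form {m n : ℕ} (ν : Fin m → Fin 3 → ℝ) (j : Fin m × W n × W n) :
    (W n × Fin 3 → ℝ) →ₗ[ℝ] ℝ where
  toFun x := ν j.1 ⬝ᵥ (fun c => x (j.2.2, c)) - ν j.1 ⬝ᵥ (fun c => x (j.2.1, c))
  map_add' x y := by simp [dotProduct, Fin.sum_univ_three]; ring
  map_smul' r x := by simp [dotProduct, Fin.sum_univ_three]; ring

open Classical in
noncomputable def rk {m n : ℕ} (S : Finset (Fin m × W n × W n)) (i : Fin m) (v : W n) : ℕ :=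
  #(univ.filter fun u => (i, u, v) ∈ S)

theorem not_sep3 (m : ℕ) : ∃ n, ¬ Sep3LE (Gr n) m := by
  classical
  obtain ⟨s, hs⟩ := numeric m
  refine ⟨2 ^ s, ?_⟩
  have hN : Fintype.card (W (2 ^ s)) ≤ 2 ^ (s + 5) := by
    simp only [Fintype.card_sum, Fintype.card_prod, Fintype.card_fin, pow_add]; omega
  generalize 2 ^ s = n at hs hN ⊢
  rintro ⟨ν, φ, -, -, hφ⟩
  let S : Sg n → Finset (Fin m × W n × W n) := fun σ =>
    univ.filter fun j => ν j.1 ⬝ᵥ φ (σ, j.2.1) < ν j.1 ⬝ᵥ φ (σ, j.2.2)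
  have hS := signs (form ν) (univ.image S) (by
    intro T hT
    obtain ⟨σ, -, rfl⟩ := mem_image.mp hT
    refine ⟨fun z => φ (σ, z.1) z.2, fun j => ?_⟩
    simp [S, form])
  have hlt : ∀ σ i v, rk (S σ) i v < 2 ^ (s + 5) := by
    intro σ i v
    refine lt_of_lt_of_le ?_ hN
    rw [← card_univ]
    unfold rk
    refine card_lt_card (filter_ssubset.mpr ⟨v, mem_univ _, ?_⟩)
    simp [S]
  have hmono : ∀ σ i u v, ν i ⬝ᵥ φ (σ, u) < ν i ⬝ᵥ φ (σ, v) → rk (S σ) i u < rk (S σ) i v := by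
    intro σ i u v h
    unfold rk
    refine card_lt_card ⟨fun w hw => ?_, fun hsub => ?_⟩
    · simp only [S, mem_filter, mem_univ, true_and] at hw ⊢
      exact hw.trans h
    · have := hsub (show u ∈ _ by simpa [S] using h)
      simp [S] at this
  let L : Sg n → Fin 13 → Fin 13 → Fin n → Fin m → Fin (s + 6) := fun σ p q a i =>
    ⟨lev (rk (S σ) i (Sum.inl (p, a))) (rk (S σ) i (Sum.inr (q, σ p q a))),
      Nat.lt_succ_of_le (lev_le (hlt _ _ _) (hlt _ _ _))⟩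
  let code : Sg n → (univ.image S) × (Fin 13 → Fin 13 → Fin n → Fin m → Fin (s + 6)) ×
      (Fin 13 → Fin 13 → Fin n → Fin m → Fin (s + 6)) := fun σ =>
    (⟨S σ, mem_image_of_mem _ (mem_univ _)⟩, L σ, fun p q b => L σ p q ((σ p q).symm b))
  have hinj : Function.Injective code := by
    intro σ τ h
    simp only [code, Prod.mk.injEq, Subtype.mk.injEq] at h
    obtain ⟨h1, h2, h3⟩ := h
    funext p q
    ext a
    obtain ⟨a', ha'⟩ : ∃ a', σ p q a' = τ p q a := ⟨(σ p q).symm _, Equiv.apply_symm_apply _ _⟩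
    by_cases haa : a = a'
    · rw [← ha', haa]
    exfalso
    have e1 : ∀ i, L σ p q a i = L σ p q a' i := fun i => by
      have := congrFun (congrFun (congrFun (congrFun h3 p) q) (τ p q a)) i
      rw [Equiv.symm_apply_apply, ← ha', Equiv.symm_apply_apply] at this
      rw [this, h2]
    have e2 : ∀ i, rk (S σ) i (Sum.inl (p, a)) / 2 ^ (L σ p q a i : ℕ) =
        rk (S σ) i (Sum.inl (p, a')) / 2 ^ (L σ p q a i : ℕ) := fun i => by
      have t1 := lev_spec (rk (S τ) i (Sum.inl (p, a))) (rk (S τ) i (Sum.inr (q, τ p q a)))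
      have t2 := lev_spec (rk (S σ) i (Sum.inl (p, a'))) (rk (S σ) i (Sum.inr (q, σ p q a')))
      change _ / 2 ^ (L τ p q a i : ℕ) = _ / 2 ^ (L τ p q a i : ℕ) at t1
      change _ / 2 ^ (L σ p q a' i : ℕ) = _ / 2 ^ (L σ p q a' i : ℕ) at t2
      rw [← h2, ← h1, ← ha'] at t1
      rw [← e1] at t2
      rw [t1, t2]
    obtain ⟨i, t, ht⟩ := hφ (σ, Sum.inl (p, a)) (σ, Sum.inr (q, σ p q a)) (σ, Sum.inl (p, a'))
      (σ, Sum.inr (q, σ p q a')) ⟨⟨by simp, Or.inl ⟨σ, p, q, a, rfl, rfl⟩⟩,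
        ⟨by simp, Or.inl ⟨σ, p, q, a', rfl, rfl⟩⟩, by simpa using haa, by simp, by simp,
        by simpa using haa⟩
    have f1 : lev _ _ = lev _ _ := congrArg Fin.val (e1 i)
    rcases ht with ⟨k1, k2⟩ | ⟨k1, k2⟩
    · have a1 := k1 _ (left_mem_segment _ _ _)
      have a2 := k1 _ (right_mem_segment _ _ _)
      have a3 := k2 _ (left_mem_segment _ _ _)
      have a4 := k2 _ (right_mem_segment _ _ _)
      exact lev_clash f1 (e2 i) (hmono _ _ _ _ (a1.trans a3)) (hmono _ _ _ _ (a1.trans a4))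
        (hmono _ _ _ _ (a2.trans a3)) (hmono _ _ _ _ (a2.trans a4))
    · have a1 := k1 _ (left_mem_segment _ _ _)
      have a2 := k1 _ (right_mem_segment _ _ _)
      have a3 := k2 _ (left_mem_segment _ _ _)
      have a4 := k2 _ (right_mem_segment _ _ _)
      refine lev_clash f1.symm ?_ (hmono _ _ _ _ (a1.trans a3)) (hmono _ _ _ _ (a1.trans a4))
        (hmono _ _ _ _ (a2.trans a3)) (hmono _ _ _ _ (a2.trans a4))
      rw [← f1]
      exact (e2 i).symm
  have hc := Fintype.card_le_of_injective _ hinj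
  simp only [Fintype.card_prod, Fintype.card_fun, Fintype.card_fin, Fintype.card_perm,
    Fintype.card_coe, Fintype.card_sum] at hc hS
  refine absurd (hc.trans (Nat.mul_le_mul_right _ hS)) (not_le.mpr ?_)
  have e1 : (n.factorial ^ 13) ^ 13 = n.factorial ^ 169 := by rw [← pow_mul]
  have e2 : ((((s + 6) ^ m) ^ n) ^ 13) ^ 13 * ((((s + 6) ^ m) ^ n) ^ 13) ^ 13 =
      ((s + 6) ^ (m * 338)) ^ n := by
    simp only [← pow_mul, ← pow_add]
    congr 1
    ring
  rw [e1, e2, show 13 * n + 13 * n = 26 * n by ring]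
  exact hs

/-- There are graphs of separation dimension at most 195 and arbitrarily large `π₃`. -/
theorem result : ∀ m : ℕ, ∃ (V : Type) (_ : Fintype V) (G : SimpleGraph V),
    SepLE G 195 ∧ ¬ Sep3LE G m := by
  intro m
  obtain ⟨n, hn⟩ := not_sep3 m
  exact ⟨_, inferInstance, Gr n, sep_Gr n, hn⟩

end Pool.Agent.Results.MP_38bec9_co.No
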